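import Mathlib
import Pool.Agent.H.MP_e732b6_an.A
open MeasureTheory Filter Topology ProbabilityTheory TopologicalSpace
open scoped RealInnerProductSpace
namespace Pool.Agent.Results.MP_e732b6_an.Iff
open Pool.Agent.H.MP_e732b6_an

section
variable {G : Type} {X Y : Type} [Group G]
  [MeasurableSpace X] [MulAction G X] [MeasurableConstSMul G X]
  [MeasurableSpace Y] [MulAction G Y] [MeasurableConstSMul G Y]
  {μ : Measure X} {ν : Measure Y} {l : Measure (X × Y)}

lemma inv2 (j : Join G μ ν l) : SMulInvariantMeasure G Y ν := ⟨fun g s hs => by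
  rw [← j.snd, Measure.map_apply measurable_snd hs,
    Measure.map_apply measurable_snd (measurable_const_smul g hs)]
  exact (j.m3 g).measure_preimage (measurable_snd hs).nullMeasurableSet⟩

variable [IsProbabilityMeasure μ] [IsProbabilityMeasure ν]

omit [IsProbabilityMeasure μ] [MeasurableConstSMul G X] [MeasurableConstSMul G Y] in
lemma P_ind' (j : Join G μ ν l) (f : Lp ℝ 2 μ) {t : Set Y} (ht : MeasurableSet t) :
    ⟪P j.m1 j.m2 f, ind ν ht⟫ = ∫ p in Prod.snd ⁻¹' t, f p.1 ∂l := by
  have := j.prob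
  rw [inner_P, real_inner_comm]
  exact (inner_ind (μ := l) (measurable_snd ht) _).trans
    (integral_congr_ae (ae_restrict_of_ae (Lp.coeFn_compMeasurePreserving f j.m1)))

variable [SMulInvariantMeasure G X μ] [SMulInvariantMeasure G Y ν]

lemma cnd (j : Join G μ ν l) (H : Ind j) {B : Set Y} (hB : MeasurableSet B)
    (hi : ∀ g : G, (fun y => g • y) ⁻¹' B = B) (h0 : ν B ≠ 0) :
    ∃ j' : Join G μ (cond ν B) (cond l (Prod.snd ⁻¹' B)),
      @Ind _ _ _ _ _ _ _ _ _ _ _ _ _ _ (cond_isProbabilityMeasure h0) j' := by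
  have := j.prob
  have := cond_isProbabilityMeasure h0
  have hS : MeasurableSet (Prod.snd ⁻¹' B : Set (X × Y)) := measurable_snd hB
  have e0 : l (Prod.snd ⁻¹' B) = ν B := j.m2.measure_preimage hB.nullMeasurableSet
  have r0 : ν.real B ≠ 0 := by simpa [measureReal_eq_zero_iff] using h0
  set u := P j.m2 j.m1 (ind ν hB) with hu
  have u1 : AP G μ u := by
    have : ∀ g : G, Co (measurePreserving_smul g μ) u = u := fun g => by
      rw [hu, ← j.int']
      congr 1
      show ind ν (measurable_const_smul g hB) = ind ν hB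
      congr 1
      exact hi g
    refine (isCompact_singleton (x := u)).of_isClosed_subset isClosed_closure
      (closure_minimal ?_ isClosed_singleton)
    rintro _ ⟨g, rfl⟩
    exact this g
  have u2 : ⟪u, one μ⟫ = ν.real B := by rw [hu, P_one, real_inner_comm, one_ind]
  have u3 := const_of u (by
    conv_lhs => rw [hu, P_symm, ← hu, H u u1]
    rw [real_inner_smul_right, u2, real_inner_comm, one_ind, sq])
  have j' : Join G μ (cond ν B) (cond l (Prod.snd ⁻¹' B)) := by
    refine ⟨cond_isProbabilityMeasure (e0 ▸ h0), fun g => ?_, ?_, ?_⟩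
    · rw [ProbabilityTheory.cond, Measure.map_smul]
      congr 1
      conv_rhs => rw [← j.inv g]
      rw [Measure.restrict_map (j.m3 g).measurable hS]
      congr 2
      exact (congrArg (fun s => Prod.snd ⁻¹' s) (hi g)).symm
    · ext s hs
      have h1 := P_ind j.m1 j.m2 hs hB
      rw [P_symm, ← hu, u3, u2, real_inner_smul_right, real_inner_comm, one_ind] at h1
      rw [Measure.map_apply measurable_fst hs, cond_apply hS, e0, Set.inter_comm]
      have h2 : l (Prod.fst ⁻¹' s ∩ Prod.snd ⁻¹' B) = ν B * μ s := by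
        rw [← ENNReal.toReal_eq_toReal_iff' (by finiteness) (by finiteness), ENNReal.toReal_mul]
        exact h1.symm
      rw [h2, ← mul_assoc, ENNReal.inv_mul_cancel h0 (by finiteness), one_mul]
    · rw [ProbabilityTheory.cond, Measure.map_smul, ← Measure.restrict_map measurable_snd hB, j.snd,
        e0]
      rfl
  refine ⟨j', fun f hf => ext_ind fun t ht => ?_⟩
  have h1 := P_ind' j f (ht.inter hB)
  rw [H f hf, real_inner_smul_left, one_ind] at h1
  rw [P_ind' j', real_inner_smul_left, one_ind, ProbabilityTheory.cond, Measure.restrict_smul,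
    integral_smul_measure, Measure.restrict_restrict (measurable_snd ht), ← Set.preimage_inter,
    ← h1, e0, Measure.real, Measure.real, cond_apply hB, Set.inter_comm]
  simp only [smul_eq_mul, ENNReal.toReal_mul]
  ring

end

variable {G X : Type} [Group G] [TopologicalSpace X] [CompactSpace X] [MetrizableSpace X]
  [MeasurableSpace X] [BorelSpace X] [MulAction G X] [ContinuousConstSMul G X]
  {μ : Measure X} [IsProbabilityMeasure μ] [SMulInvariantMeasure G X μ]

def C3 (G : Type) [Group G] [MulAction G X] [ContinuousConstSMul G X] (μ : Measure X)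
    [IsProbabilityMeasure μ] [SMulInvariantMeasure G X μ] (l : Measure (X × X)) : Prop :=
  ∀ f, AP G μ f → ∀ h φ : C(X, ℝ), |∫ p, φ p.1 * h p.2 ∂l - ⟪f, one μ⟫ * ∫ p, h p.2 ∂l| ≤
    ‖ContinuousMap.toLp 2 μ ℝ φ - f‖ * ‖h‖

lemma c3_iff {ν : Measure X} [IsProbabilityMeasure ν] {l : Measure (X × X)} (j : Join G μ ν l) :
    C3 G μ l ↔ Ind j := by
  have := j.prob
  have e1 : ∀ h φ : C(X, ℝ), ∫ p, φ p.1 * h p.2 ∂l =
      ⟪P j.m1 j.m2 (ContinuousMap.toLp 2 μ ℝ φ), ContinuousMap.toLp 2 ν ℝ h⟫ := fun h φ => by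
    rw [inner_P']
    refine integral_congr_ae ?_
    filter_upwards [j.m1.quasiMeasurePreserving.ae (φ.coeFn_toLp (p := 2) (𝕜 := ℝ) μ),
      j.m2.quasiMeasurePreserving.ae (h.coeFn_toLp (p := 2) (𝕜 := ℝ) ν)] with p a1 a2
    rw [a1, a2]
  have e2 : ∀ h : C(X, ℝ), ∫ p, h p.2 ∂l = ⟪one ν, ContinuousMap.toLp 2 ν ℝ h⟫ := fun h => by
    rw [inner_one, integral_congr_ae (h.coeFn_toLp (p := 2) (𝕜 := ℝ) ν), ← j.snd,
      integral_map measurable_snd.aemeasurable h.continuous.aestronglyMeasurable]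
  refine ⟨fun H f hf => ?_, fun H f hf h φ => ?_⟩
  · have h1 : ∀ h : C(X, ℝ), ⟪P j.m1 j.m2 f, ContinuousMap.toLp 2 ν ℝ h⟫ =
        ⟪⟪f, one μ⟫ • one ν, ContinuousMap.toLp 2 ν ℝ h⟫ := fun h => by
      have := (ContinuousMap.toLp_denseRange ℝ μ ℝ (p := 2) (by simp)).induction_on
        (p := fun u => |⟪P j.m1 j.m2 u, ContinuousMap.toLp 2 ν ℝ h⟫ -
          ⟪f, one μ⟫ * ⟪one ν, ContinuousMap.toLp 2 ν ℝ h⟫| ≤ ‖u - f‖ * ‖h‖) f
        (isClosed_le (by fun_prop) (by fun_prop)) fun φ => by rw [← e1, ← e2]; exact H f hf h φ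
      rw [real_inner_smul_left]
      simpa [sub_eq_zero] using this
    exact ext_inner_right ℝ fun v => (ContinuousMap.toLp_denseRange ℝ ν ℝ (p := 2)
      (by simp)).induction_on (p := fun v => ⟪P j.m1 j.m2 f, v⟫ = ⟪⟪f, one μ⟫ • one ν, v⟫) v
      (isClosed_eq (by fun_prop) (by fun_prop)) h1
  · rw [e1, e2, ← real_inner_smul_left, ← H f hf, ← inner_sub_left, ← map_sub, inner_P]
    refine (abs_real_inner_le_norm _ _).trans ?_
    rw [LinearIsometry.norm_map, LinearIsometry.norm_map]
    refine mul_le_mul_of_nonneg_left ?_ (norm_nonneg _)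
    have := (ContinuousMap.toLp 2 ν ℝ : C(X, ℝ) →L[ℝ] _).le_of_opNorm_le
      (ContinuousMap.toLp_norm_le ν) h
    simpa [measureUnivNNReal] using this

theorem erg_self (H : ∀ (ν : Measure X) [IsProbabilityMeasure ν] [SMulInvariantMeasure G X ν],
    (∀ s, MeasurableSet s → (∀ g : G, (fun y => g • y) ⁻¹' s = s) → ν s = 0 ∨ ν s = 1) →
      QD G μ ν) : QD G μ μ := by
  let _ := metrizableSpaceMetric X
  let J : Set (ProbabilityMeasure (X × X)) :=
    {l | Join G μ ((l : Measure (X × X)).map Prod.snd) l ∧ C3 G μ l}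
  have hJ : IsClosed J := by
    have : J = (⋂ g : G, {l : ProbabilityMeasure (X × X) |
          l.map (f := fun p => (g • p.1, g • p.2)) (by fun_prop) = l}) ∩
        {l : ProbabilityMeasure (X × X) | l.map measurable_fst.aemeasurable = ⟨μ, inferInstance⟩} ∩
        {l : ProbabilityMeasure (X × X) | C3 G μ l} := by
      ext l
      simp only [J, Set.mem_inter_iff, Set.mem_iInter, Set.mem_ofPred_eq]
      exact ⟨fun h => ⟨⟨fun g => Subtype.ext (h.1.inv g), Subtype.ext h.1.fst⟩, h.2⟩,
        fun h => ⟨⟨inferInstance, fun g => congrArg Subtype.val (h.1.1 g),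
          congrArg Subtype.val h.1.2, rfl⟩, h.2⟩⟩
    rw [this]
    refine ((isClosed_iInter fun g => isClosed_eq (ProbabilityMeasure.continuous_map (by fun_prop))
      continuous_id).inter (isClosed_eq (ProbabilityMeasure.continuous_map continuous_fst)
      continuous_const)).inter ?_
    simp only [C3, Set.ofPred_forall]
    refine isClosed_iInter fun f => isClosed_iInter fun _ => isClosed_iInter fun h =>
      isClosed_iInter fun φ => isClosed_le (Continuous.abs (Continuous.sub ?_
        (continuous_const.mul ?_))) continuous_const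
    · exact ProbabilityMeasure.continuous_integral_continuousMap
        (⟨fun p => φ p.1 * h p.2, by fun_prop⟩ : C(X × X, ℝ))
    · exact ProbabilityMeasure.continuous_integral_continuousMap
        (⟨fun p => h p.2, by fun_prop⟩ : C(X × X, ℝ))
  let e : ProbabilityMeasure (X × X) → C(X × X, ℝ) → ℝ := fun l φ => ∫ p, φ p ∂l
  have he : Continuous e := continuous_pi fun φ =>
    ProbabilityMeasure.continuous_integral_continuousMap φ
  have hK := hJ.isCompact.image he
  have ext : ∀ l ∈ J, e l ∈ (e '' J).extremePoints ℝ →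
      (l : Measure (X × X)) = μ.prod ((l : Measure (X × X)).map Prod.snd) := by
    rintro l ⟨j, c⟩ hl
    have := Measure.isProbabilityMeasure_map (μ := (l : Measure (X × X)))
      measurable_snd.aemeasurable
    generalize hν : (l : Measure (X × X)).map Prod.snd = ν at j this ⊢
    have := inv2 j
    refine H ν (fun B hB hi => ?_) l j ((ind_iff j).1 ((c3_iff j).1 c))
    by_contra hcon
    push Not at hcon
    have hc : ν Bᶜ ≠ 0 := fun h => hcon.2 ((prob_compl_eq_zero_iff hB).1 h)
    have mk : ∀ B, MeasurableSet B → (∀ g : G, (fun y => g • y) ⁻¹' B = B) → ν B ≠ 0 →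
        ∃ l' ∈ J, (l' : Measure (X × X)) = cond l (Prod.snd ⁻¹' B) := by
      intro B hB hi h0
      have := cond_isProbabilityMeasure h0
      obtain ⟨j', c'⟩ := cnd j ((c3_iff j).1 c) hB hi h0
      exact ⟨⟨_, j'.prob⟩, ⟨⟨j'.prob, j'.inv, j'.fst, rfl⟩, (c3_iff j').2 c'⟩, rfl⟩
    obtain ⟨l1, a1, b1⟩ := mk B hB hi hcon.1
    obtain ⟨l2, a2, b2⟩ := mk Bᶜ hB.compl (fun g => by rw [Set.preimage_compl, hi]) hc
    have hS : MeasurableSet (Prod.snd ⁻¹' B : Set (X × X)) := measurable_snd hB
    have e0 : ∀ B, MeasurableSet B → (l : Measure (X × X)) (Prod.snd ⁻¹' B) = ν B := fun B hB =>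
      j.m2.measure_preimage hB.nullMeasurableSet
    have p1 : 0 < ν.real B := ENNReal.toReal_pos hcon.1 (by finiteness)
    have p2 : 0 < ν.real Bᶜ := ENNReal.toReal_pos hc (by finiteness)
    have h1 := ((mem_extremePoints.1 hl).2 _ ⟨l1, a1, rfl⟩ _ ⟨l2, a2, rfl⟩
      ⟨ν.real B, ν.real Bᶜ, p1, p2, by simpa using measureReal_add_measureReal_compl (μ := ν) hB, by
        funext φ
        simp only [e, Pi.add_apply, Pi.smul_apply, smul_eq_mul, b1, b2, ProbabilityTheory.cond,
          integral_smul_measure, e0 B hB, e0 Bᶜ hB.compl, ENNReal.toReal_inv]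
        rw [← Measure.real, ← Measure.real, mul_inv_cancel_left₀ p1.ne',
          mul_inv_cancel_left₀ p2.ne', Set.preimage_compl]
        exact integral_add_compl hS (φ.continuous.integrable_of_hasCompactSupport
          (HasCompactSupport.of_compactSpace _))⟩).1
    have h2 : (l1 : Measure (X × X)) = l := ext_of_forall_integral_eq_of_IsFiniteMeasure fun φ =>
      congrFun h1 φ.toContinuousMap
    have h3 := e0 _ hB.compl
    rw [← h2, b1, cond_apply hS, Set.preimage_compl, Set.inter_compl_self] at h3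
    exact hc (by simpa using h3.symm)
  have key : ∀ l ∈ J, ∀ φ h : C(X, ℝ),
      ∫ p, φ p.1 * h p.2 ∂(l : Measure (X × X)) - (∫ x, φ x ∂μ) * ∫ p, h p.2 ∂(l : Measure (X × X))
        ≤ 0 := by
    intro l hl φ h
    let L : StrongDual ℝ (C(X × X, ℝ) → ℝ) :=
      ContinuousLinearMap.proj (⟨fun p => φ p.1 * h p.2, by fun_prop⟩ : C(X × X, ℝ)) -
        (∫ x, φ x ∂μ) • ContinuousLinearMap.proj (⟨fun p => h p.2, by fun_prop⟩ : C(X × X, ℝ))
    obtain ⟨x, hx, hx'⟩ := hK.exists_isMaxOn ⟨_, l, hl, rfl⟩ L.continuous.continuousOn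
    have hF := ContinuousLinearMap.toExposed.isExposed (l := L) (A := e '' J)
    obtain ⟨y, hy⟩ := (hF.isCompact hK).extremePoints_nonempty ⟨x, hx, hx'⟩
    obtain ⟨⟨m, hm, rfl⟩, hy'⟩ := hy.1
    have h1 := ext m hm (hF.isExtreme.extremePoints_subset_extremePoints hy)
    refine (hy' _ ⟨l, hl, rfl⟩).trans (le_of_eq ?_)
    show ∫ p, φ p.1 * h p.2 ∂(m : Measure (X × X)) -
      (∫ x, φ x ∂μ) * ∫ p, h p.2 ∂(m : Measure (X × X)) = 0
    rw [← integral_map measurable_snd.aemeasurable h.continuous.aestronglyMeasurable]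
    conv_lhs => congr; rw [h1]
    rw [integral_prod_mul, sub_self]
  intro l j c
  have := j.prob
  have hl : (⟨l, j.prob⟩ : ProbabilityMeasure (X × X)) ∈ J :=
    ⟨⟨j.prob, j.inv, j.fst, rfl⟩, (c3_iff j).2 ((ind_iff j).2 c)⟩
  refine Measure.eq_prod_of_integral_mul_boundedContinuousFunction fun φ h => ?_
  have h1 := key _ hl φ.toContinuousMap h.toContinuousMap
  have h2 := key _ hl (-φ.toContinuousMap) h.toContinuousMap
  have h3 : ∫ y, h y ∂μ = ∫ p, h p.2 ∂l := by
    conv_lhs => rw [← j.snd]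
    rw [integral_map measurable_snd.aemeasurable h.continuous.aestronglyMeasurable]
  simp only [ContinuousMap.neg_apply, neg_mul, integral_neg, ProbabilityMeasure.coe_mk,
    BoundedContinuousFunction.coe_toContinuousMap] at h1 h2
  rw [h3]
  linarith

theorem result (G X : Type) [Group G] [Countable G] [TopologicalSpace X] [CompactSpace X]
    [MetrizableSpace X] [MeasurableSpace X] [BorelSpace X] [MulAction G X] [ContinuousConstSMul G X]
    (μ : Measure X) [IsProbabilityMeasure μ] [SMulInvariantMeasure G X μ] :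
    (∀ (Y : Type) [TopologicalSpace Y] [CompactSpace Y] [MetrizableSpace Y] [MeasurableSpace Y]
      [BorelSpace Y] [MulAction G Y] [ContinuousConstSMul G Y]
      (ν : Measure Y) [IsProbabilityMeasure ν] [SMulInvariantMeasure G Y ν],
      (∀ s, MeasurableSet s → (∀ g : G, (fun y => g • y) ⁻¹' s = s) → ν s = 0 ∨ ν s = 1) →
        QD G μ ν) ↔ QD G μ μ := by
  refine ⟨fun H => erg_self fun ν _ _ h => H X ν h, fun H Y _ _ _ _ _ _ _ ν _ _ _ => ?_⟩
  let _ := metrizableSpaceMetric X
  exact self_all H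

end Pool.Agent.Results.MP_e732b6_an.Iff
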